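import Mathlib

open Filter Topology Set Dynamics ExpGrowth
open scoped ENNReal

namespace Pool.Agent.Results.MP_3cd2af_an.Order

/-- the logistic map -/
def f (a x : ℝ) : ℝ := a * x * (1 - x)

/-- topological entropy of a self-map of the unit interval -/
noncomputable def h (F : ℝ → ℝ) : EReal := coverEntropy F (Icc 0 1)

lemma f_mono {a : ℝ} (ha : 0 ≤ a) {u v : ℝ} (hv : v ≤ 1 / 2) : MonotoneOn (f a) (Icc u v) := by
  intro x hx y hy hxy
  have := mul_nonneg ha (mul_nonneg (sub_nonneg.2 hxy) (show 0 ≤ 1 - x - y by linarith [hx.2, hy.2]))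
  unfold f; nlinarith

lemma f_anti {a : ℝ} (ha : 0 ≤ a) {u v : ℝ} (hu : 1 / 2 ≤ u) : AntitoneOn (f a) (Icc u v) := by
  intro x hx y hy hxy
  have := mul_nonneg ha (mul_nonneg (sub_nonneg.2 hxy) (show 0 ≤ x + y - 1 by linarith [hx.1, hy.1]))
  unfold f; nlinarith

lemma f_maps {a : ℝ} (ha : 0 ≤ a) {u v : ℝ} (hu : 0 ≤ u) (hv : v ≤ 1) {w : ℝ} (hw : a / 4 ≤ w) :
    MapsTo (f a) (Icc u v) (Icc 0 w) := by
  intro x hx
  have h1 := mul_nonneg ha (mul_nonneg (hu.trans hx.1) (sub_nonneg.2 (hx.2.trans hv)))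
  have h2 := mul_nonneg ha (sq_nonneg (x - 1 / 2))
  unfold f; constructor <;> nlinarith

noncomputable def E (g : ℝ → ℝ) (u v : ℝ) : ℝ≥0∞ := eVariationOn g (Icc u v)

lemma E_add (g : ℝ → ℝ) {u v w : ℝ} (h1 : u ≤ v) (h2 : v ≤ w) : E g u w = E g u v + E g v w := by
  have := eVariationOn.Icc_add_Icc g (s := univ) h1 h2 (mem_univ _)
  simpa [E] using this.symm

lemma E_two (g : ℝ → ℝ) {a w : ℝ} (ha : 0 ≤ a) (hw : a / 4 ≤ w) :
    E (g ∘ f a) 0 1 ≤ 2 * E g 0 w := by
  rw [E_add _ (v := 1 / 2) (by norm_num) (by norm_num), two_mul]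
  exact add_le_add
    (eVariationOn.comp_le_of_monotoneOn g _ (f_mono ha le_rfl) (f_maps ha le_rfl (by norm_num) hw))
    (eVariationOn.comp_le_of_antitoneOn g _ (f_anti ha le_rfl) (f_maps ha (by norm_num) le_rfl hw))

def F : ℝ → ℝ := f 1 ∘ f 3 ∘ f 4
def G : ℝ → ℝ := f 1 ∘ f 4 ∘ f 3

lemma m1 : MapsTo (f 1) (Icc (1 / 2) (3 / 4)) (Icc (3 / 16) (1 / 4)) := by
  intro x hx; unfold f; constructor <;> nlinarith [hx.1, hx.2, sq_nonneg (x - 1 / 2)]
lemma m3 : MapsTo (f 3) (Icc (1 / 2) (3 / 4)) (Icc (1 / 2) (3 / 4)) := by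
  intro x hx; unfold f; constructor <;> nlinarith [hx.1, hx.2, sq_nonneg (x - 1 / 2)]
lemma m4 : MapsTo (f 4) (Icc (3 / 16) (1 / 4)) (Icc (1 / 2) (3 / 4)) := by
  intro x hx; unfold f; constructor <;> nlinarith [hx.1, hx.2, sq_nonneg (x - 1 / 2)]

lemma J_maps (j : ℕ) : MapsTo F^[j] (Icc (3 / 16) (1 / 4)) (Icc (3 / 16) (1 / 4)) :=
  MapsTo.iterate (m1.comp (m3.comp m4)) j

lemma J_mono (j : ℕ) : MonotoneOn F^[j] (Icc (3 / 16) (1 / 4)) := by
  induction j with
  | zero => exact monotoneOn_id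
  | succ j ih =>
    rw [Function.iterate_succ]
    refine ih.comp ?_ (J_maps 1)
    intro x hx y hy hxy
    exact f_anti zero_le_one le_rfl (m3 (m4 hy)) (m3 (m4 hx))
      (f_anti (by norm_num) le_rfl (m4 hx) (m4 hy) (f_mono (by norm_num) (by norm_num) hx hy hxy))

lemma E_mono {g : ℝ → ℝ} {u v : ℝ} (huv : u ≤ v) (hg : MonotoneOn g (Icc u v))
    (h1 : g v - g u ≤ 1) : E g u v ≤ 1 := by
  have := hg.eVariationOn_le (left_mem_Icc.2 huv) (right_mem_Icc.2 huv)
  rw [inter_self] at this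
  exact this.trans (ENNReal.ofReal_le_one.2 h1)

lemma v_le (j : ℕ) : E F^[j] 0 (1 / 4) ≤ 2 * j + 1 := by
  induction j with
  | zero => simpa using E_mono (g := id) (by norm_num) monotoneOn_id (by norm_num)
  | succ j ih =>
    have a1 : E F^[j] (3 / 16) (1 / 4) ≤ 1 := E_mono (by norm_num) (J_mono j) (by
      have h1 := J_maps j (left_mem_Icc.2 (by norm_num))
      have h2 := J_maps j (right_mem_Icc.2 (by norm_num))
      linarith [h1.1, h2.2])
    have a2 : E (F^[j] ∘ f 1) (1 / 2) (3 / 4) ≤ 1 :=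
      (eVariationOn.comp_le_of_antitoneOn _ _ (f_anti zero_le_one le_rfl) m1).trans a1
    have a3 : E (F^[j] ∘ f 1) 0 (3 / 4) ≤ 2 * j + 1 + 1 := by
      rw [E_add _ (v := 1 / 2) (by norm_num) (by norm_num)]
      exact add_le_add ((eVariationOn.comp_le_of_monotoneOn _ _ (f_mono zero_le_one le_rfl)
        (f_maps zero_le_one le_rfl (by norm_num) le_rfl)).trans ih) a2
    have a4 : E ((F^[j] ∘ f 1) ∘ f 3) 0 (3 / 4) ≤ 2 * j + 1 + 1 + 1 := by
      rw [E_add _ (v := 1 / 2) (by norm_num) (by norm_num)]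
      exact add_le_add ((eVariationOn.comp_le_of_monotoneOn _ _ (f_mono (by norm_num) le_rfl)
        (f_maps (by norm_num) le_rfl (by norm_num) le_rfl)).trans a3)
        ((eVariationOn.comp_le_of_antitoneOn _ _ (f_anti (by norm_num) le_rfl) m3).trans a2)
    have a5 : MapsTo (f 4) (Icc 0 (1 / 4)) (Icc 0 (3 / 4)) := by
      intro x hx; unfold f; constructor <;> nlinarith [hx.1, hx.2]
    refine ((eVariationOn.comp_le_of_monotoneOn ((F^[j] ∘ f 1) ∘ f 3) _
      (f_mono (by norm_num) (by norm_num)) a5).trans a4).trans_eq ?_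
    push_cast; ring

lemma w_le (j : ℕ) : E F^[j] 0 1 ≤ ((16 * j + 8 : ℕ) : ℝ≥0∞) := by
  cases j with
  | zero => exact (E_mono (g := id) (by norm_num) monotoneOn_id (by norm_num)).trans (by norm_num)
  | succ j =>
    calc E (((F^[j] ∘ f 1) ∘ f 3) ∘ f 4) 0 1 ≤ 2 * (2 * (2 * (2 * j + 1))) := by
          refine (E_two _ (by norm_num) (w := 1) (by norm_num)).trans (mul_le_mul_right ?_ _)
          refine (E_two _ (by norm_num) (w := 1) (by norm_num)).trans (mul_le_mul_right ?_ _)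
          exact (E_two _ (by norm_num) le_rfl).trans (mul_le_mul_right (v_le j) _)
      _ ≤ _ := by
          have : 2 * (2 * (2 * (2 * j + 1))) ≤ 16 * (j + 1) + 8 := by omega
          exact_mod_cast this

lemma cover (ε : ℝ) (hε : 0 < ε) (n : ℕ) : ∃ s : Finset ℝ,
    IsDynCoverOf F (Icc 0 1) {p | dist p.1 p.2 < ε} n s ∧
      s.card ≤ ⌊n * (16 * n + 8) / ε⌋₊ + 1 := by
  classical
  have fin : ∀ j x, x ∈ Icc (0 : ℝ) 1 → E F^[j] 0 x ≤ ((16 * j + 8 : ℕ) : ℝ≥0∞) := fun j x hx =>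
    (eVariationOn.mono _ (Icc_subset_Icc_right hx.2)).trans (w_le j)
  have fin' : ∀ j x, x ∈ Icc (0 : ℝ) 1 → E F^[j] 0 x ≠ ⊤ := fun j x hx =>
    ne_top_of_le_ne_top (ENNReal.natCast_ne_top _) (fin j x hx)
  let V : ℝ → ℝ := fun x => ∑ j ∈ Finset.range n, (E F^[j] 0 x).toReal
  have V0 : ∀ x, 0 ≤ V x := fun x => Finset.sum_nonneg fun _ _ => ENNReal.toReal_nonneg
  have V1 : ∀ x ∈ Icc (0 : ℝ) 1, V x ≤ n * (16 * n + 8) := by
    intro x hx
    refine (Finset.sum_le_card_nsmul _ _ (16 * n + 8 : ℝ) fun j hj => ?_).trans (by simp [mul_add])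
    have h1 := ENNReal.toReal_mono (ENNReal.natCast_ne_top _) (fin j x hx)
    have h2 : (j : ℝ) ≤ n := by exact_mod_cast (Finset.mem_range.1 hj).le
    rw [ENNReal.toReal_natCast] at h1
    push_cast at h1; linarith
  have V2 : ∀ x ∈ Icc (0 : ℝ) 1, ∀ y ∈ Icc (0 : ℝ) 1, x ≤ y → ∀ j < n,
      dist (F^[j] x) (F^[j] y) ≤ V y - V x := by
    intro x hx y hy hxy
    have a : ∀ j, dist (F^[j] x) (F^[j] y) ≤ (E F^[j] 0 y).toReal - (E F^[j] 0 x).toReal := by
      intro j
      have e := E_add F^[j] hx.1 hxy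
      have t : E F^[j] x y ≠ ⊤ := fun ht => fin' j y hy (by rw [e, ht, add_top])
      rw [e, ENNReal.toReal_add (fin' j x hx) t, add_sub_cancel_left, dist_edist]
      exact ENNReal.toReal_mono t
        (eVariationOn.edist_le _ (left_mem_Icc.2 hxy) (right_mem_Icc.2 hxy))
    intro j hj
    simp only [V, ← Finset.sum_sub_distrib]
    exact (a j).trans (Finset.single_le_sum (f := fun j =>
      (E F^[j] 0 y).toReal - (E F^[j] 0 x).toReal) (fun i _ => dist_nonneg.trans (a i))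
      (Finset.mem_range.2 hj))
  let k : Icc (0 : ℝ) 1 → ℕ := fun x => ⌊V x / ε⌋₊
  refine ⟨(Finset.range (⌊n * (16 * n + 8) / ε⌋₊ + 1)).image fun i => (Function.invFun k i).1,
    fun x hx => ?_, Finset.card_image_le.trans (by simp)⟩
  set y := Function.invFun k (k ⟨x, hx⟩)
  have hy : k y = k ⟨x, hx⟩ := Function.invFun_eq ⟨_, rfl⟩
  refine ⟨y, Finset.mem_coe.2 (Finset.mem_image_of_mem _ (Finset.mem_range.2 (Nat.lt_succ_of_le
    (Nat.floor_mono (div_le_div_of_nonneg_right (V1 x hx) hε.le))))), ?_⟩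
  have b1 := Nat.floor_le (div_nonneg (V0 x) hε.le)
  have b2 := Nat.floor_le (div_nonneg (V0 y) hε.le)
  have b3 := Nat.lt_floor_add_one (V x / ε)
  have b4 := Nat.lt_floor_add_one (V y / ε)
  simp only [k] at hy
  rw [hy] at b2 b4
  rw [le_div_iff₀ hε] at b1 b2
  rw [div_lt_iff₀ hε] at b3 b4
  refine mem_dynEntourage.2 fun j hj => ?_
  show dist _ _ < ε
  rcases le_total x y with h | h
  · linarith [V2 x hx y y.2 h j hj]
  · rw [dist_comm]; linarith [V2 y y.2 x hx h j hj]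

lemma upper : h F ≤ ENNReal.log (3 / 2) := by
  rw [h, coverEntropy_eq_iSup_basis Metric.uniformity_basis_dist]
  refine iSup₂_le fun ε hε => ?_
  rw [← expGrowthSup_pow]
  apply expGrowthSup_eventually_monotone
  have h1 := (tendsto_pow_const_div_const_pow_of_one_lt 2 (r := 3 / 2) (by norm_num)).eventually
    (gt_mem_nhds (show 0 < 1 / (24 / ε + 1) by positivity))
  filter_upwards [h1, eventually_ge_atTop 1] with n hn hn1
  obtain ⟨s, hs, hc⟩ := cover ε hε n
  refine (ENat.toENNReal_mono hs.coverMincard_le_card).trans ?_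
  have h2 : (s.card : ℝ) ≤ (3 / 2) ^ n := by
    have h3 : (s.card : ℝ) ≤ ⌊n * (16 * n + 8) / ε⌋₊ + 1 := by exact_mod_cast hc
    have h4 := Nat.floor_le (show 0 ≤ n * (16 * n + 8) / ε by positivity)
    have h5 : (1 : ℝ) ≤ n := by exact_mod_cast hn1
    rw [div_lt_div_iff₀ (by positivity) (by positivity), one_mul] at hn
    have h6 : n * (16 * n + 8) / ε ≤ n ^ 2 * (24 / ε) := by
      rw [← mul_div_assoc]; apply div_le_div_of_nonneg_right _ hε.le; nlinarith
    nlinarith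
  have h3 := ENNReal.ofReal_le_ofReal h2
  rw [ENNReal.ofReal_natCast, ENNReal.ofReal_pow (by norm_num),
    ENNReal.ofReal_div_of_pos (by norm_num)] at h3
  simpa using h3

def I : Bool → Set ℝ
  | false => Icc 0 (4 / 100)
  | true => Icc (6 / 100) (22 / 100)

lemma G_cont : Continuous G := by unfold G f; fun_prop

lemma pre (b : Bool) (y : ℝ) (hy : y ∈ Icc (0 : ℝ) (22 / 100)) : ∃ x ∈ I b, G x = y := by
  cases b
  · refine intermediate_value_Icc (by norm_num) G_cont.continuousOn ⟨?_, hy.2.trans ?_⟩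
    · simpa [G, f] using hy.1
    · norm_num [G, f]
  · obtain ⟨c, hc, e⟩ := intermediate_value_Icc (a := 6 / 100) (b := 22 / 100) (f := f 3)
      (by norm_num) (by unfold f; fun_prop) (show 1 / 2 ∈ Icc _ _ by norm_num [f])
    obtain ⟨x, hx, e'⟩ := intermediate_value_Icc' hc.1 G_cont.continuousOn
      (show y ∈ Icc _ _ from ⟨by simp only [G, Function.comp, e]; norm_num [f]; exact hy.1,
        hy.2.trans (by norm_num [G, f])⟩)
    exact ⟨x, ⟨hx.1, hx.2.trans hc.2⟩, e'⟩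

lemma itin (n : ℕ) : ∀ w : ℕ → Bool, ∃ x ∈ Icc (0 : ℝ) (22 / 100), ∀ k < n, G^[k] x ∈ I (w k) := by
  induction n with
  | zero => exact fun _ => ⟨0, by norm_num, by simp⟩
  | succ n ih =>
    intro w
    obtain ⟨y, hy, h⟩ := ih fun k => w (k + 1)
    obtain ⟨x, hx, rfl⟩ := pre (w 0) y hy
    refine ⟨x, ?_, fun k hk => ?_⟩
    · cases hw : w 0 <;> rw [hw] at hx <;> constructor <;> linarith [hx.1, hx.2]
    · cases k with
      | zero => exact hx
      | succ k => exact h k (by omega)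

lemma lower : ENNReal.log 2 ≤ h G := by
  refine le_trans ?_ (coverEntropyEntourage_le_coverEntropy G _
    (Metric.dist_mem_uniformity (ε := 1 / 100) (by norm_num)))
  rw [← expGrowthSup_pow]
  apply expGrowthSup_monotone
  intro n
  have : ((2 ^ n : ℕ) : ℕ∞) ≤ coverMincard G (Icc 0 1) {p | dist p.1 p.2 < 1 / 100} n := by
    refine le_iInf₂ fun s hs => ?_
    choose x hx hI using fun w : Fin n → Bool =>
      itin n fun k => if h : k < n then w ⟨k, h⟩ else false
    choose y hy hU using fun w => hs (x := x w) ⟨(hx w).1, (hx w).2.trans (by norm_num)⟩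
    have := Finset.card_le_card_of_injOn (s := Finset.univ) y (fun w _ => hy w) (by
      intro w _ w' _ e
      ext k
      have a := hI w k k.2
      have b := hI w' k k.2
      have c : dist _ _ < _ := mem_dynEntourage.1 (hU w) k k.2
      have d : dist _ _ < _ := mem_dynEntourage.1 (hU w') k k.2
      simp only [k.2, dif_pos, Fin.eta] at a b
      rw [e] at c
      rw [Real.dist_eq, abs_lt] at c d
      cases h1 : w k <;> cases h2 : w' k <;> rw [h1] at a <;> rw [h2] at b <;>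
        first | rfl | (exfalso; linarith [a.1, a.2, b.1, b.2, c.1, c.2, d.1, d.2]))
    simp only [Finset.card_univ, Fintype.card_fun, Fintype.card_bool, Fintype.card_fin] at this
    exact_mod_cast this
  simpa using ENat.toENNReal_mono this

theorem result : h (f 1 ∘ f 3 ∘ f 4) < h (f 1 ∘ f 4 ∘ f 3) ∧
    ¬ ∀ a₁ ∈ Icc (1 : ℝ) 4, ∀ a₂ ∈ Icc (1 : ℝ) 4, ∀ a₃ ∈ Icc (1 : ℝ) 4,
      h (f a₁ ∘ f a₂ ∘ f a₃) = h (f a₁ ∘ f a₃ ∘ f a₂) := by
  have : h F < h G := by
    refine upper.trans_lt (lt_of_lt_of_le (ENNReal.log_lt_log_iff.2 ?_) lower)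
    rw [ENNReal.div_lt_iff (by simp) (by simp)]; norm_num
  exact ⟨this, fun H => this.ne (H 1 (by norm_num) 3 (by norm_num) 4 (by norm_num))⟩

end Pool.Agent.Results.MP_3cd2af_an.Order
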